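import Pool.Agent.Helper89.GP.GoalsA

/-!
# GP RWJ
-/

namespace Pool.Agent.Helper65.GP

open Finset MeasureTheory Pool.Agent.Helper89.GP

/-- The integral of `(2 + τ - u) exp (s u)`. -/
theorem int_aux (s τ : ℝ) (hs : s ≠ 0) :
    ∫ u in (0 : ℝ)..τ, (2 + τ - u) * Real.exp (s * u) =
      Real.exp (s * τ) * (2 / s + 1 / s ^ 2) - (2 + τ) / s - 1 / s ^ 2 := by
  have hd : ∀ u ∈ Set.uIcc (0 : ℝ) τ, HasDerivAt
      (fun u : ℝ => (2 + τ - u) * (Real.exp (s * u) / s) + Real.exp (s * u) / s ^ 2)
      ((2 + τ - u) * Real.exp (s * u)) u := by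
    intro u _
    have h1 : HasDerivAt (fun u : ℝ => 2 + τ - u) (-1) u := by
      simpa using (hasDerivAt_id u).const_sub (2 + τ)
    have h2 : HasDerivAt (fun u : ℝ => Real.exp (s * u)) (Real.exp (s * u) * s) u := by
      have := ((hasDerivAt_id u).const_mul s).exp
      simpa using this
    have h3 := (h1.fun_mul (h2.div_const s)).fun_add (h2.div_const (s ^ 2))
    refine h3.congr_deriv ?_
    field_simp
    ring
  rw [intervalIntegral.integral_eq_sub_of_hasDerivAt hd
    (by apply Continuous.intervalIntegrable; fun_prop)]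
  simp only [mul_zero, Real.exp_zero, sub_zero]
  field_simp
  ring

theorem rwj (h1 : QfkStmt) : RwjStmt := by
  intro n b A c N τ hb hc hA hτ hsum hN hF
  set s : ℝ := c / A with hs
  have hs0 : 0 < s := div_pos hc hA
  have hcs : c = s * A := by rw [hs]; field_simp
  -- the sum of the right sides
  have hQ : ∀ k ∈ range n, (τ + 1 - k) * b k ≤
      (Real.exp (-τ) * τ ^ k / (k.factorial : ℝ) +
        ∫ u in (0 : ℝ)..τ, (2 + τ - u) * Real.exp (-u) * (u ^ k / (k.factorial : ℝ))) * b k := by
    intro k _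
    exact mul_le_mul_of_nonneg_right (le_trans (le_max_left _ _) (h1 k τ hτ)) (hb k)
  have hQs := Finset.sum_le_sum hQ
  have hR : ∑ k ∈ range n, (Real.exp (-τ) * τ ^ k / (k.factorial : ℝ) +
        ∫ u in (0 : ℝ)..τ, (2 + τ - u) * Real.exp (-u) * (u ^ k / (k.factorial : ℝ))) * b k =
      Real.exp (-τ) * (∑ k ∈ range n, b k * τ ^ k / (k.factorial : ℝ)) +
        ∫ u in (0 : ℝ)..τ, (2 + τ - u) * Real.exp (-u) *
          (∑ k ∈ range n, b k * u ^ k / (k.factorial : ℝ)) := by
    have hi : ∀ k ∈ range n, IntervalIntegrable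
        (fun u : ℝ => (2 + τ - u) * Real.exp (-u) * (u ^ k / (k.factorial : ℝ)) * b k)
        volume 0 τ := by
      intro k _
      apply Continuous.intervalIntegrable
      fun_prop
    have e1 : (fun u : ℝ => (2 + τ - u) * Real.exp (-u) *
          (∑ k ∈ range n, b k * u ^ k / (k.factorial : ℝ))) =
        fun u : ℝ => ∑ k ∈ range n,
          (2 + τ - u) * Real.exp (-u) * (u ^ k / (k.factorial : ℝ)) * b k := by
      funext u
      rw [Finset.mul_sum]
      refine Finset.sum_congr rfl fun k _ => ?_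
      ring
    rw [e1, intervalIntegral.integral_finsetSum hi, Finset.mul_sum, ← Finset.sum_add_distrib]
    refine Finset.sum_congr rfl fun k _ => ?_
    rw [intervalIntegral.integral_mul_const]
    ring
  rw [hR] at hQs
  -- bound by the hypothesis
  have hE : Real.exp (-τ) * (∑ k ∈ range n, b k * τ ^ k / (k.factorial : ℝ)) ≤
      c * Real.exp (s * τ) := by
    refine le_trans (mul_le_mul_of_nonneg_left (hF τ hτ) (Real.exp_pos _).le) (le_of_eq ?_)
    have : Real.exp (s * τ) = Real.exp (-τ) * Real.exp ((1 + s) * τ) := by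
      rw [← Real.exp_add]; congr 1; ring
    rw [this]; ring
  have hI : ∫ u in (0 : ℝ)..τ, (2 + τ - u) * Real.exp (-u) *
          (∑ k ∈ range n, b k * u ^ k / (k.factorial : ℝ)) ≤
      c * ∫ u in (0 : ℝ)..τ, (2 + τ - u) * Real.exp (s * u) := by
    rw [← intervalIntegral.integral_const_mul]
    refine intervalIntegral.integral_mono_on hτ
      (by apply Continuous.intervalIntegrable; fun_prop)
      (by apply Continuous.intervalIntegrable; fun_prop) ?_
    intro u hu
    have hu0 : 0 ≤ u := hu.1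
    have hu1 : u ≤ τ := hu.2
    have hw : 0 ≤ (2 + τ - u) * Real.exp (-u) :=
      mul_nonneg (by linarith) (Real.exp_pos _).le
    refine le_trans (mul_le_mul_of_nonneg_left (hF u hu0) hw) (le_of_eq ?_)
    have : Real.exp (s * u) = Real.exp (-u) * Real.exp ((1 + s) * u) := by
      rw [← Real.exp_add]; congr 1; ring
    rw [this]; ring
  rw [int_aux s τ hs0.ne'] at hI
  have hL : ∑ k ∈ range n, (τ + 1 - k) * b k =
      (τ + 2) * (1 - A) - ∑ k ∈ range n, ((k : ℝ) + 1) * b k := by
    rw [← hsum, Finset.mul_sum, ← Finset.sum_sub_distrib]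
    refine Finset.sum_congr rfl fun k _ => ?_
    ring
  rw [hL] at hQs
  have hN' : N ≤ A / s := by
    rw [le_div_iff₀ hs0]
    rw [hcs] at hN
    nlinarith
  have hfin : c * Real.exp (s * τ) + c * (Real.exp (s * τ) * (2 / s + 1 / s ^ 2) -
      (2 + τ) / s - 1 / s ^ 2) =
      A * ((1 + s) ^ 2 * Real.exp (s * τ) / s) - A * (2 + τ) - A / s := by
    rw [hcs]
    field_simp
    ring
  have h2 : (τ + 2) * (1 - A) = τ + 2 - A * (2 + τ) := by ring
  rw [h2] at hQs
  linarith

end Pool.Agent.Helper65.GP
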